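import Pool.Agent.helper73.SPV.Spec

set_option autoImplicit false

namespace Pool.Agent.SPV

open Matrix Module Pool.Agent.SHL Pool.Agent.H48SL

theorem LOW_le (n q r : ℕ) : Cong (Fin n) (q * r) ≤ Cong (Fin n) q := by
  intro g hg
  rw [mem_Cong] at hg ⊢
  obtain ⟨B, hB⟩ := hg
  refine ⟨(r : ℤ) • B, ?_⟩
  rw [hB, smul_smul]
  push_cast
  rfl

theorem LOW_index (hLWA : LWA_stmt) (n p : ℕ) (hn : 1 ≤ n) (hp : p.Prime) (j : ℕ) :
    (p ^ (n * n - 1)) ^ j ≤ (Cong (Fin n) (p ^ (j + 1))).index := by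
  induction j with
  | zero =>
    have h := cong_finiteIndex (ι := Fin n) (p ^ (0 + 1)) (pow_ne_zero _ hp.ne_zero)
    have := h.index_ne_zero
    rw [pow_zero]
    omega
  | succ j ih =>
    have h1 : Cong (Fin n) (p ^ (j + 1 + 1)) ≤ Cong (Fin n) (p ^ (j + 1)) := by
      rw [pow_succ p (j + 1)]
      exact LOW_le n _ _
    have h2 := hLWA n p hn hp (j + 1) (by omega)
    rw [← Subgroup.relIndex_mul_index h1, pow_succ, mul_comm]
    exact Nat.mul_le_mul h2 ih

theorem LOW (hLWA : LWA_stmt) : LOW_stmt := by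
  intro n p hn hp H hH j
  refine (LOW_index hLWA n p hn hp j).trans ?_
  have hfi := cong_finiteIndex (ι := Fin n) (p ^ (j + 1)) (pow_ne_zero _ hp.ne_zero)
  have hker : Cong (Fin n) (p ^ (j + 1)) = (red n (p ^ (j + 1))).ker := rfl
  have hnor : (Cong (Fin n) (p ^ (j + 1))).Normal := by
    rw [hker]
    infer_instance
  have h1 := hH _ hnor hfi
  have h2 : (red n (p ^ (j + 1))) '' (H : Set (SLn n)) = Set.range (red n (p ^ (j + 1))) := by
    apply Set.Subset.antisymm (Set.image_subset_range _ _)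
    rintro _ ⟨x, rfl⟩
    have hx : x ∈ H ⊔ Cong (Fin n) (p ^ (j + 1)) := by
      rw [h1]
      trivial
    rw [Subgroup.mem_sup_of_normal_right] at hx
    obtain ⟨y, hy, z, hz, rfl⟩ := hx
    refine ⟨y, hy, ?_⟩
    rw [hker, MonoidHom.mem_ker] at hz
    rw [map_mul, hz, mul_one]
  rw [h2, hker, Subgroup.index_ker]
  rfl

end Pool.Agent.SPV
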